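import Pool.Agent.Helper30.AC.Stmts

set_option autoImplicit false

open Filter Topology

namespace Pool.Agent.Helper62.AC

open Pool.Agent.Helper30.AC

universe u

variable {E : Type u} [NormedAddCommGroup E] [NormedSpace ℝ E]

theorem COM_dd_compact {K : Set E} (hK : IsCompact K) : IsCompact (DD K) := by
  have h1 : DD K = (fun p : ℝ × E => (p.1, p.1 • p.2)) '' ((Set.Icc (0 : ℝ) 1) ×ˢ K) := by
    ext ⟨t, v⟩
    constructor
    · rintro ⟨h0, h1, k, hk, hv⟩
      exact ⟨(t, k), ⟨⟨h0, h1⟩, hk⟩, Prod.ext rfl hv.symm⟩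
    · rintro ⟨⟨s, k⟩, ⟨⟨hs0, hs1⟩, hk⟩, he⟩
      have h2 := congrArg Prod.fst he
      have h3 := congrArg Prod.snd he
      simp only at h2 h3
      subst h2
      exact ⟨hs0, hs1, k, hk, h3.symm⟩
  rw [h1]
  exact (isCompact_Icc.prod hK).image
    (continuous_fst.prodMk (continuous_fst.smul continuous_snd))

theorem COM_dd_convex {K : Set E} (hK : Good K) : Convex ℝ (DD K) := by
  obtain ⟨-, hconv, h0, -⟩ := hK
  rintro ⟨t, v⟩ ⟨ht0, ht1, k, hk, hv⟩ ⟨s, w⟩ ⟨hs0, hs1, l, hl, hw⟩ a b ha hb hab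
  simp only at ht0 ht1 hv hs0 hs1 hw
  subst hv hw
  have hat : 0 ≤ a * t := mul_nonneg ha ht0
  have hbs : 0 ≤ b * s := mul_nonneg hb hs0
  have e1 : a • (t, t • k) + b • (s, s • l) = (a * t + b * s, (a * t) • k + (b * s) • l) := by
    simp [smul_smul]
  rw [e1]
  refine ⟨by positivity, by nlinarith, ?_⟩
  by_cases hz : a * t + b * s = 0
  · have h1 : a * t = 0 := by linarith
    have h2 : b * s = 0 := by linarith
    exact ⟨0, h0, by simp [h1, h2]⟩
  · have hpos : 0 < a * t + b * s := lt_of_le_of_ne (by positivity) (Ne.symm hz)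
    refine ⟨(a * t / (a * t + b * s)) • k + (b * s / (a * t + b * s)) • l,
      hconv hk hl (by positivity) (by positivity) (by field_simp), ?_⟩
    simp only
    rw [smul_add, smul_smul, smul_smul, mul_div_cancel₀ _ hz, mul_div_cancel₀ _ hz]

theorem COM_cc_compact {K : Set E} (hK : Good K) : IsCompact (CC K) := by
  have hD := COM_dd_compact hK.1
  have hcl : IsClosed (DD K) := hD.isClosed
  have h1 : IsCompact (Set.univ.pi fun _ : ℕ => DD K) := isCompact_univ_pi fun _ => hD
  have h2 : IsCompact ((fun u : ℕ → ℝ × E => ((fun n => (u n).1, fun n => (u n).2) :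
      (ℕ → ℝ) × (ℕ → E))) '' (Set.univ.pi fun _ : ℕ => DD K)) := by
    apply h1.image
    refine Continuous.prodMk ?_ ?_
    · exact continuous_pi fun n => (continuous_apply n).fst
    · exact continuous_pi fun n => (continuous_apply n).snd
  have h3 : CC K = ((fun u : ℕ → ℝ × E => ((fun n => (u n).1, fun n => (u n).2) :
      (ℕ → ℝ) × (ℕ → E))) '' (Set.univ.pi fun _ : ℕ => DD K)) ∩
      ⋂ n : ℕ, (fun q : (ℕ → ℝ) × (ℕ → E) =>
        ((q.1 n - q.1 (n + 1), q.2 n - q.2 (n + 1)) : ℝ × E)) ⁻¹' DD K := by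
    ext q
    constructor
    · intro hq
      refine ⟨⟨fun n => (q.1 n, q.2 n), fun n _ => (hq n).1, rfl⟩, ?_⟩
      rw [Set.mem_iInter]
      exact fun n => (hq n).2
    · rintro ⟨⟨u, hu, rfl⟩, h4⟩ n
      rw [Set.mem_iInter] at h4
      exact ⟨hu n (Set.mem_univ n), h4 n⟩
  rw [h3]
  refine h2.inter_right (isClosed_iInter fun n => hcl.preimage ?_)
  refine Continuous.prodMk ?_ ?_
  · exact ((continuous_apply n).comp continuous_fst).sub
      ((continuous_apply (n + 1)).comp continuous_fst)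
  · exact ((continuous_apply n).comp continuous_snd).sub
      ((continuous_apply (n + 1)).comp continuous_snd)

theorem COM_ll_continuous (y : ℕ → E →L[ℝ] ℝ) : Continuous (LL y) := by
  refine continuous_pi fun n => continuous_pi fun i => ?_
  unfold LL rho
  by_cases hi : i ≤ n
  · simp only [hi, if_true]
    exact (y i).continuous.comp (continuous_apply n)
  · simp only [hi, if_false]
    exact continuous_const

theorem COM_ll_add (y : ℕ → E →L[ℝ] ℝ) (a b : ℝ) (S T : ℕ → E) :
    a • LL y S + b • LL y T = LL y (a • S + b • T) := by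
  funext n i
  simp only [LL, rho, Pi.add_apply, Pi.smul_apply, smul_eq_mul]
  by_cases hi : i ≤ n
  · simp [hi]
  · simp [hi]

theorem st_COM : ST_COM.{u} := by
  intro E _ _ K y hK
  constructor
  · have h1 : XX K y = (fun q : (ℕ → ℝ) × (ℕ → E) => LL y q.2) '' CC K := by
      ext x
      constructor
      · rintro ⟨q, hq, rfl⟩
        exact ⟨q, hq, rfl⟩
      · rintro ⟨q, hq, rfl⟩
        exact ⟨q, hq, rfl⟩
    rw [h1]
    exact (COM_cc_compact hK).image ((COM_ll_continuous y).comp continuous_snd)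
  · rintro _ ⟨q, hq, rfl⟩ _ ⟨r, hr, rfl⟩ a b ha hb hab
    refine ⟨(a • q.1 + b • r.1, a • q.2 + b • r.2), ?_, COM_ll_add y a b _ _⟩
    intro n
    have hD := COM_dd_convex hK
    constructor
    · have h1 := hD (hq n).1 (hr n).1 ha hb hab
      simpa using h1
    · have h1 := hD (hq n).2 (hr n).2 ha hb hab
      have e1 : a • ((q.1 n - q.1 (n + 1), q.2 n - q.2 (n + 1)) : ℝ × E) +
          b • ((r.1 n - r.1 (n + 1), r.2 n - r.2 (n + 1)) : ℝ × E) =
          ((a • q.1 + b • r.1) n - (a • q.1 + b • r.1) (n + 1),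
            (a • q.2 + b • r.2) n - (a • q.2 + b • r.2) (n + 1)) := by
        ext
        · simp; ring
        · simp [smul_sub]; abel
      rw [e1] at h1
      exact h1

end Pool.Agent.Helper62.AC
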